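import Pool.Agent.Y985.OR.Final

/-!
Relations between the periods of the fibres of families of even-dimensional varieties (orthogonal monodromy), over bases
of any dimension: outside few hypersurfaces of small degree of the base, all polynomial relations of bounded degree and
size between the periods of the fibre, with arbitrary constants, come from the cup product and its determinant.

The definitions (`Pool.Agent.Y985.OR`, `Pool.Agent.Y119.PLM`, `Pool.Agent.Y890.MV`, `Pool.Agent.Y124`,
`Pool.Agent.Y120`):
* `MT n` : tuples of complex matrices `A j` of size `n j`; `Ix n` : the indices of their entries; `pe P A` : the value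
  of the polynomial `P` at the entries of `A`;
* `bl J u v = uᵀ J v`; `refl J v` : the reflection `x ↦ x - 2 (v, x) / (v, v) v`;
* `Cnt U Y V F` : `F` on `V` is an analytic continuation of `Y` on `U` along a chain of connected sets;
* `IsMon U Y g` : some analytic continuation of `Y` on `U` is `Y g` on a nonempty open subset of `U`;
* `BigO J U Y j` : the tuples `(1, .., h, .., 1)` (`h` in position `j`) in the monodromy with reflections `h` have no
  common invariant subspace besides `0` and the whole space, and two of them have a product of infinite order;
* `DenseMon U Y J` : polynomials which vanish on the monodromy vanish on the product of the orthogonal groups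
  of the forms `J j`; `DenseS U Y J` : they vanish on the product of the special orthogonal groups (`IsoS`);
* `ExcE J J' U Y K io k ξ T` : the exceptional points;
* `InnerM U k` : points of norm at most `k` at distance at least `1 / k` from the complement of `U`;
* `HtLe K T x` : `x` is a quotient of two integers of `K` all of whose conjugates are at most `T`;
* `Cov D m S` : `S` is covered by at most `m` hypersurfaces of degree at most `D`.
-/

set_option autoImplicit false

namespace Pool.Agent.Results.MP_1eadae_ag.EvenDimensionalFamilies

open Filter Pool.Agent Pool.Agent.Y119.PLM Pool.Agent.Y985.OR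

/-- Let `U` be a connected nonempty open set in `ℂ ^ X` and `Y j`, `j` in a finite set, matrices of analytic functions
on `U` (period matrices) with `(Y j)ᵀ * J' j * Y j = J j`, where the entries of `J' j` are polynomials on the base and
`J j` is constant, symmetric and invertible.

(A) If the reflections in the monodromy concentrated in the factor `j` act irreducibly, and two of them have a product
of infinite order, for every `j`, then the Zariski closure of the monodromy contains the product of the orthogonal
groups of the forms `J j`.

(B) If the Zariski closure of the monodromy contains the product of the special orthogonal groups there is `ω → ∞` such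
that for all large `T`, all number fields `K` of degree at most `ω T`, all embeddings and all complex numbers `ξ i`,
`i < ω T`: the points `s` of `K ^ X` of height at most `T` in the compact set `InnerM U (ω T)` at which some polynomial
of partial degrees at most `ω T`, with coefficients `∑ ξ i * c i`, `c i` integers of `K` with all conjugates at most
`T ^ ω T`, vanishes at `(Y j (s))` but does not vanish at all tuples `A` with `(A j)ᵀ * J' j (s) * A j = J j` and
`det (A j) = det (Y j (s))`, lie on at most `T ^ (1 / ω T)` hypersurfaces of degree at most `T ^ (1 / ω T)`; and there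
are at most `T ^ (1 / ω T) * N ^ (|X| - 1)` of them, `N` being the number of elements of `K` of height at most `T`. -/
theorem result {X κ : Type} [Fintype X] [DecidableEq X] [Nonempty X] [Fintype κ] [DecidableEq κ] (n : κ → ℕ)
    (J : (j : κ) → Matrix (Fin (n j)) (Fin (n j)) ℂ)
    (J' : (j : κ) → Matrix (Fin (n j)) (Fin (n j)) (MvPolynomial X ℂ)) (hJ : ∀ j, (J j).transpose = J j)
    (hdet : ∀ j, (J j).det ≠ 0) (U : Set (X → ℂ)) (hU : IsPreconnected U) (hUo : IsOpen U) (hne : U.Nonempty)
    (Y : (X → ℂ) → MT n) (hY : ∀ j a b, AnalyticOnNhd ℂ (fun x => Y x j a b) U)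
    (hsym : ∀ x ∈ U, ∀ j, (Y x j).transpose * (J' j).map (MvPolynomial.eval x) * Y x j = J j) :
    ((∀ j, BigO J U Y j) → DenseMon U Y J) ∧
    (DenseS U Y J → ∃ (ω : ℝ → ℕ) (T₀ : ℝ), Tendsto ω atTop atTop ∧ Monotone ω ∧ ∀ T, T₀ ≤ T → 0 < ω T ∧
      ∀ (K : Type) [Field K] [NumberField K], Module.finrank ℚ K ≤ ω T → ∀ (io : K →+* ℂ) (ξ : Fin (ω T) → ℂ),
        Y124.Cov ⌊T ^ ((ω T : ℝ)⁻¹)⌋₊ ⌊T ^ ((ω T : ℝ)⁻¹)⌋₊
          ((fun (s : X → K) i => io (s i)) '' ExcE J J' U Y K io (ω T) ξ T) ∧
        (ExcE J J' U Y K io (ω T) ξ T).Finite ∧
        ((ExcE J J' U Y K io (ω T) ξ T).ncard : ℝ) ≤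
          T ^ ((ω T : ℝ)⁻¹) * ({x : K | Y120.HtLe K T x}.ncard : ℝ) ^ (Fintype.card X - 1)) := by
  have hF : Fam J J' U Y := ⟨hU, hUo, hne, hY, fun j => ⟨Or.inl (hJ j), hdet j⟩, hsym⟩
  exact ⟨fun h => dense' X κ n J J' U Y hF fun j => Or.inl ⟨hJ j, h j⟩, main_of fin' hF⟩

end Pool.Agent.Results.MP_1eadae_ag.EvenDimensionalFamilies
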