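import Pool.Agent.Y119.ML.Hyp

/-!
# All linear relations between products of hyperlogarithms at integers, of arbitrary height

The hyperlogarithms of `ℙ¹ ∖ {0, α_1, …, α_r, ∞}` (`α_a` distinct nonzero integers) at an integer `t`, in the coordinate
`y = 1 / t`: iterated integrals from `0` to `1 / t` of the forms `dy / y` and `dy / (1 - α_a y)`.  They are periods, and
contain all multiple polylogarithms in one variable.  By the shuffle relations every polynomial in the iterated
integrals of all words (regularized at the tangential base point) is a linear combination of the numbers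
`(log t)^e HL_w(1 / t)`, `w` a word whose last letter is not `dy / y`.

The theorem: for every space `V` of constants of dimension at most `D` (for instance the span of finitely many arbitrary
periods, like multiple zeta values) and almost all tuples of integers there is no linear relation at all with
coefficients in `V` between the products of these numbers of bounded length.
-/

set_option autoImplicit false

namespace Pool.Agent.Results.MP_1eadae_ag.Hyperlogarithms

variable {r : ℕ}

/-- The hyperlogarithm of a word: the iterated integral from `0` to `x` of the forms `dy / y` (for the letter `none`) and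
`dy / (1 - α_a y)` (for the letter `some a`); the first letter is the outermost integration. -/
noncomputable def HL (α : Fin r → ℤ) : List (Option (Fin r)) → ℝ → ℝ
  | [] => fun _ => 1
  | none :: w => fun x => ∫ y in (0 : ℝ)..x, HL α w y / y
  | some a :: w => fun x => ∫ y in (0 : ℝ)..x, HL α w y / (1 - α a * y)

/-- the words of length at most `W` whose last letter is not `none` -/
abbrev Word (r W : ℕ) : Type := {w : List (Option (Fin r)) // w.length ≤ W ∧ w.getLast? ≠ some none}

/-- there are finitely many words -/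
noncomputable instance (r W : ℕ) : Fintype (Word r W) := inferInstanceAs (Fintype (Pool.Agent.Y119.ML.WI r W))

/-- the numbers `(log t)^e HL_w(1 / t)`, `e ≤ W`, `w` of length at most `W` -/
noncomputable def num (α : Fin r → ℤ) (W t : ℕ) (b : Fin (W + 1) × Word r W) : ℂ :=
  (((Real.log t) ^ (b.1 : ℕ) * HL α b.2.1 (1 / t) : ℝ) : ℂ)

/-- a nontrivial linear relation with coefficients in `V` -/
def Related {β : Type} [Fintype β] (V : Submodule ℚ ℂ) (x : β → ℂ) : Prop :=
  ∃ v : β → ℂ, (∀ b, v b ∈ V) ∧ v ≠ 0 ∧ ∑ b, v b * x b = 0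

/-- the integers `u` in the window `[t - H, t]` for which the numbers `(log u)^e HL_w(1 / u)` are related over `V` -/
def window (α : Fin r → ℤ) (W : ℕ) (V : Submodule ℚ ℂ) (t H : ℕ) : Set ℕ :=
  {u | t ≤ u + H ∧ u ≤ t ∧ Related V (num α W u)}

/-- the integer points `t` of the box `∏ (x_i, x_i + N]` for which the products
`∏ (log t_i)^(e_i) HL_(w_i)(1 / t_i)` are related over `V` -/
def box (α : Fin r → ℤ) (W : ℕ) (V : Submodule ℚ ℂ) {k : ℕ} (x : Fin k → ℕ) (N : ℕ) : Set (Fin k → ℕ) :=
  {t | (∀ i, x i < t i ∧ t i ≤ x i + N) ∧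
    Related V (fun b : Fin k → Fin (W + 1) × Word r W => ∏ i, num α W (t i) (b i))}

section proofs

open Pool.Agent.Y119.ML Pool.Agent.Y120.GF

theorem HL_eq' (α : Fin r → ℤ) (w : List (Option (Fin r))) : HL α w = Pool.Agent.Y119.ML.HL α w := by
  induction w with
  | nil => rfl
  | cons o w ih =>
    rcases o with _ | a
    · funext x
      simp only [HL, Pool.Agent.Y119.ML.HL, ih]
    · funext x
      simp only [HL, Pool.Agent.Y119.ML.HL, ih]

theorem num_eq (α : Fin r → ℤ) (W t : ℕ) : num α W t = XX α W t := by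
  funext b
  rw [num, HL_eq']
  rfl

theorem card_of {β : Type} {s : Set β} {M : ℝ} (hs : s.Finite) (h : ∀ S : Finset β, (∀ t ∈ S, t ∈ s) → (S.card : ℝ) ≤ M) :
    (s.ncard : ℝ) ≤ M := by
  rw [Set.ncard_eq_toFinset_card s hs]
  exact h _ fun t ht => hs.mem_toFinset.1 ht

end proofs

/-- **Main result.** -/
theorem result (r : ℕ) (α : Fin r → ℤ) (hα : Function.Injective α) (h0 : ∀ a, α a ≠ 0) (W D : ℕ) :
    -- short windows
    (∃ E M : ℕ, ∀ H t : ℕ, (H + 2) ^ E ≤ t → ∀ (V : Submodule ℚ ℂ) [Module.Finite ℚ V], Module.finrank ℚ V ≤ D →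
      (window α W V t H).Finite ∧ (window α W V t H).ncard ≤ M) ∧
    -- boxes
    ∀ k : ℕ, ∃ c C : ℝ, 0 < c ∧ ∀ (V : Submodule ℚ ℂ) [Module.Finite ℚ V], Module.finrank ℚ V ≤ D →
      ∀ (x : Fin k → ℕ) (N : ℕ), 1 ≤ N → (box α W V x N).Finite ∧
        ((box α W V x N).ncard : ℝ) ≤ C * (N : ℝ) ^ (k - 1) * ∑ i, (1 + N / ((x i : ℝ) + N) ^ c) := by
  classical
  constructor
  · obtain ⟨E, M, h⟩ := Pool.Agent.Y119.ML.win_XX α hα h0 W D
    refine ⟨E, M, fun H t hHt V _ hV => ?_⟩
    have hf : (window α W V t H).Finite := (Set.finite_Iic t).subset fun u hu => hu.2.1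
    refine ⟨hf, ?_⟩
    have h1 := card_of (M := (M : ℝ)) hf fun S hS => by
      have h2 := h H t hHt V hV S fun u hu => by
        obtain ⟨a, b, c⟩ := hS u hu
        rw [num_eq] at c
        exact ⟨a, b, c⟩
      exact_mod_cast h2
    exact_mod_cast h1
  · intro k
    obtain ⟨c, C, hc, -, h⟩ := Pool.Agent.Y120.GF.count_k _ (Pool.Agent.Y119.ML.one_XX α hα h0 W) D k
    refine ⟨c, C, hc, fun V _ hV x N hN => ?_⟩
    have hf : (box α W V x N).Finite := by
      refine (Set.Finite.pi' (t := fun i => Set.Icc (x i) (x i + N)) fun i => Set.finite_Icc _ _).subset fun t ht i => ?_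
      exact ⟨(ht.1 i).1.le, (ht.1 i).2⟩
    refine ⟨hf, card_of hf fun S hS => ?_⟩
    refine h V hV x N hN S fun t ht => ?_
    obtain ⟨a, b⟩ := hS t ht
    refine ⟨a, ?_⟩
    simp only [num_eq] at b
    exact b

end Pool.Agent.Results.MP_1eadae_ag.Hyperlogarithms
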