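import Pool.Agent.Y771.RP.NestR

/-!
# Products of members of a family `X_t` of products of elliptic curves, relative to an arbitrary motive

Let `α_N < ⋯ < α_0 < γ_0 < ⋯ < γ_N`, and for `j = 0, …, N` let `s_j` be a function which is analytic near `[α_j, γ_j]`, real and
increasing on `[α_j, γ_j]`, with `s_j(α_j) = 0`, `s_j(γ_j) = 1`. For `t` in `(α_0, γ_0)` put
`X_t = E_{s_0(t)} × ⋯ × E_{s_N(t)}`, where `E_λ : y² = x (x - 1) (x - λ)`. Examples: `s_j(t) = (t - α_j) / (γ_j - α_j)`; or the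
Moebius function `s_j` with the values `0`, `1`, `∞` at `α_j`, `γ_j`, `δ_j`, and then `E_{s_j(t)}` is the curve of genus one
with the branch points `α_j`, `γ_j`, `δ_j`, `t`; or any rational function. If the `s_j` are algebraic functions with algebraic
coefficients and `t` is algebraic, the field of periods of `X_t` is generated over the algebraic numbers by `π` and the
`3 (N + 1)` numbers `K(s_j(t))`, `E(s_j(t))`, `K(1 - s_j(t))`. The period conjecture for the products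
`X_{t_1} × ⋯ × X_{t_n} × Y` (`Y` a fixed variety) asserts that a polynomial in the `3 (N + 1) n` numbers belonging to
`t_1, …, t_n`, with coefficients in the space spanned over the field of `t_1, …, t_n` by the periods of `Y`, vanishes only when
the corresponding formal period vanishes. Here `ξ_1, …, ξ_g` is an arbitrary system of complex numbers, for instance `1`, or
periods of `Y`.
-/

set_option autoImplicit false

open NumberField

namespace Pool.Agent.Results.MP_1eadae_ag.NestedFamilies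

/-- Complete elliptic integral of the first kind, `K(m) = ∫_0^{π/2} (1 - m sin² θ)^(-1/2) dθ`. -/
noncomputable def K (m : ℂ) : ℂ :=
  ∫ θ in (0 : ℝ)..(Real.pi / 2), (1 - m * (Real.sin θ : ℂ) ^ 2) ^ (-(1 / 2) : ℂ)

/-- Complete elliptic integral of the second kind, `E(m) = ∫_0^{π/2} (1 - m sin² θ)^(1/2) dθ`. -/
noncomputable def E (m : ℂ) : ℂ :=
  ∫ θ in (0 : ℝ)..(Real.pi / 2), (1 - m * (Real.sin θ : ℂ) ^ 2) ^ (1 / 2 : ℂ)

/-- The `3 (N + 1) n` numbers `K(s_j(t_i))`, `E(s_j(t_i))`, `K(1 - s_j(t_i))`. -/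
noncomputable def periods {N n : ℕ} (s : Fin (N + 1) → ℂ → ℂ) (t : Fin n → ℂ)
    (x : Fin n × (Fin (N + 1) × Fin 3)) : ℂ :=
  ![K (s x.2.1 (t x.1)), E (s x.2.1 (t x.1)), K (1 - s x.2.1 (t x.1))] x.2.2

/-- `x` is the quotient of two integers of `F` all of whose conjugates have absolute value at most `T`. -/
def HeightLe (F : Type) [Field F] [NumberField F] (T : ℝ) (x : F) : Prop :=
  ∃ a b : 𝓞 F, b ≠ 0 ∧ (∀ φ : F →+* ℂ, ‖φ a‖ ≤ T ∧ ‖φ b‖ ≤ T) ∧ x = a / b

/-- The `n`-tuples `t` of elements of the set `S` for which there is a polynomial `P` of degree at most `d` in each of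
`3 (N + 1) n` variables, with coefficients of the form `∑ ξ_i ι(c_i)`, where the `c_i` are integers of `F` all of whose
conjugates have absolute value at most `T ^ A`, such that the value of `P` at the periods is at most `T ^ (-B)` times the
absolute value of some nonzero coefficient of `P`. -/
def Exceptional {N g : ℕ} (n d : ℕ) (s : Fin (N + 1) → ℂ → ℂ) (F : Type) [Field F] [NumberField F] (ι : F →+* ℂ)
    (ξ : Fin g → ℂ) (S : Finset F) (A B T : ℝ) : Set (Fin n → F) :=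
  {t | (∀ j, t j ∈ S) ∧ ∃ P : MvPolynomial (Fin n × (Fin (N + 1) × Fin 3)) ℂ, (∀ x, P.degreeOf x ≤ d) ∧
    (∀ s, ∃ c : Fin g → 𝓞 F, (∀ i (φ : F →+* ℂ), ‖φ (c i)‖ ≤ T ^ A) ∧ P.coeff s = ∑ i, ξ i * ι (c i)) ∧
    ∃ s₀, P.coeff s₀ ≠ 0 ∧
      ‖MvPolynomial.aeval (periods s fun j => ι (t j)) P‖ ≤ T ^ (-B) * ‖P.coeff s₀‖}

/-- Let `[a, b]` be contained in `(α_0, γ_0)`. For all `m`, `n`, `g`, `d`, `A` and `ε > 0` there are `B`, `C`, `T₀` such that
for every number field `F` of degree at most `m`, every embedding `ι` of `F` in `ℂ`, all complex numbers `ξ_1, …, ξ_g`, all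
`T ≥ T₀` and every finite set `S` of elements of `F` of height at most `T` with `ι(S)` in `[a, b]` the number of exceptional
`n`-tuples of elements of `S` is at most `C T^ε |S|^(n - 1)`. -/
theorem result (N : ℕ) (s : Fin (N + 1) → ℂ → ℂ) (α γ : Fin (N + 1) → ℝ) (hα : StrictAnti α) (hγ : StrictMono γ)
    (h0 : α 0 < γ 0)
    (hs : ∀ j, ∀ x ∈ Set.Icc (α j) (γ j),
      AnalyticAt ℂ (s j) (x : ℂ) ∧ (s j x).im = 0 ∧ 0 < (deriv (s j) (x : ℂ)).re)
    (hs0 : ∀ j, s j (α j) = 0) (hs1 : ∀ j, s j (γ j) = 1) (a b : ℝ) (ha : α 0 < a) (hb : b < γ 0)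
    (m n g d : ℕ) (A ε : ℝ) (hε : 0 < ε) :
    ∃ B C T₀ : ℝ, ∀ (F : Type) [Field F] [NumberField F], Module.finrank ℚ F ≤ m → ∀ (ι : F →+* ℂ) (ξ : Fin g → ℂ)
      (T : ℝ), T₀ ≤ T → ∀ S : Finset F,
        (∀ x ∈ S, (ι x).im = 0 ∧ a ≤ (ι x).re ∧ (ι x).re ≤ b ∧ HeightLe F T x) →
        ((Exceptional n d s F ι ξ S A B T).ncard : ℝ) ≤ C * T ^ ε * (S.card : ℝ) ^ (n - 1) := by
  classical
  obtain ⟨B, C, T₀, hC, hT₀, H⟩ := Y771.RP.mainS m n g d (Y771.RP.fS s) ((fun x : ℝ => (x : ℂ)) '' Set.Icc a b)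
    (isCompact_Icc.image Complex.continuous_ofReal)
    (by
      rintro y _ ⟨x, hx, rfl⟩
      exact Y771.RP.fS_an s α γ hα hγ h0 hs hs0 hs1 y x ⟨ha.trans_le hx.1, hx.2.trans_lt hb⟩)
    (by
      rintro _ ⟨x, hx, rfl⟩
      exact Y771.RP.fS_locInd s α γ hα hγ h0 hs hs0 hs1 x ⟨ha.trans_le hx.1, hx.2.trans_lt hb⟩) A ε hε
  refine ⟨B, C, T₀, fun F _ _ hF ι ξ T hT S hS => ?_⟩
  have hS' : ∀ x ∈ S, x ∈ Y771.RP.Pts F ι ((fun x : ℝ => (x : ℂ)) '' Set.Icc a b) T := by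
    intro x hx
    obtain ⟨h1, h2, h3, h4⟩ := hS x hx
    refine ⟨⟨(ι x).re, ⟨h2, h3⟩, ?_⟩, h4⟩
    exact Complex.ext rfl (by rw [Complex.ofReal_im, h1])
  refine le_trans ?_ (H F hF ι ξ T hT S hS')
  have hfin : {t | t ∈ Y771.RP.Exc n d F ι ξ (fun _ => Y771.RP.fS s)
      (fun _ => (fun x : ℝ => (x : ℂ)) '' Set.Icc a b) A B T ∧ ∀ j, t j ∈ S}.Finite := by
    refine (Finset.finite_toSet (Fintype.piFinset fun _ : Fin n => S)).subset ?_
    intro t ht
    rw [Finset.mem_coe, Fintype.mem_piFinset]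
    exact ht.2
  have hsub : Exceptional n d s F ι ξ S A B T ⊆ {t | t ∈ Y771.RP.Exc n d F ι ξ (fun _ => Y771.RP.fS s)
      (fun _ => (fun x : ℝ => (x : ℂ)) '' Set.Icc a b) A B T ∧ ∀ j, t j ∈ S} := by
    rintro t ⟨htS, P, hPd, hPc, s₀, hs₀, hsP⟩
    refine ⟨⟨fun j => hS' _ (htS j), P, hPd, hPc, s₀, hs₀, ?_⟩, htS⟩
    have h2 : (fun x : Fin n × (Fin (N + 1) × Fin 3) => Y771.RP.fS s x.2 (ι (t x.1))) =
        periods s fun j => ι (t j) := by
      funext ⟨j, k, i⟩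
      fin_cases i
      · rfl
      · rfl
      · rfl
    rw [h2]
    exact hsP
  exact_mod_cast Set.ncard_le_ncard hsub hfin

end Pool.Agent.Results.MP_1eadae_ag.NestedFamilies
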