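import Mathlib
import Pool.Agent.Y918.EL.Second

/-!
# Periods of random 1-motives: logarithms and integrals of the second kind

Let `E_j = ℂ/Ω_j` (`j = 1, …, n`) be arbitrary elliptic curves over the algebraic numbers (the
invariants `g₂, g₃` of `Ω_j` are algebraic) with differentials of the second kind
`ξ_j = -σ_j x dx/y + ρ_j dx/y ≠ 0`, so that `∫^z ξ_j = σ_j ζ(z) + ρ_j z`. Let `a_{l,1}, …, a_{l,k}`
(`l = 1, …, s`) be logarithms of algebraic numbers which are linearly independent over `ℚ` and let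
`u_{j,1}, …, u_{j,k}` be elliptic logarithms of points of `E_j(ℚ̄)` which are linearly independent over
`End(E_j) ⊗ ℚ`. Let `τ_l` be arbitrary complex numbers and let `b_j` be elliptic logarithms of points of
`E_j(ℚ̄)`. We consider the random numbers and points

  `t_l = τ_l + ∑_i m_{l,i} a_{l,i}`,  `p_j = b_j + ∑_i m_{j,i} u_{j,i}`,  all `m ∈ A`,

where `A` is an arbitrary finite set of integers. The numbers `t_l` (if `e^{τ_l}` is algebraic) and
`σ_j ζ(p_j) + ρ_j p_j` are periods of the 1-motives `[ℤ → 𝔾ₘ]` and `[ℤ → E_j]` given by `e^{t_l}` and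
the point `p_j` (periods of the relative cohomology of `(𝔾ₘ, {1, e^{t_l}})`, `(E_j, {0, p_j})`).

**Theorem.** For all `s`, `n`, `D`, `N` there are `k₀`, `C` and `δ > 0` such that for all `k ≥ k₀`, all
these data, all `A` and all spaces `W` over the algebraic numbers of dimension at most `N` (for instance
the space generated by the monomials of bounded degree in `2πi` and the periods and quasi-periods of the
`Ω_j`): for all but `C |A|^((s+n)k - δk)` of the `|A|^((s+n)k)` parameters `m` the points `p_j` are not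
in `Ω_j`, the numbers `℘(p_j)` are algebraic, and the `s + n` numbers `t_l`, `σ_j ζ(p_j) + ρ_j p_j`
satisfy no nonzero polynomial relation of degree at most `D` with coefficients in `W`.

The period conjecture predicts that all these relations come from linear relations between the points
(and from the endomorphisms).

**The proof.** Modulo algebraic numbers `σ ζ(p) + ρ p` is the sum of the `m_i (σ ζ(u_i) + ρ u_i)`. By
the theorems on linear forms in logarithms (`Pool.Agent.H297R2.BakerThm`) and in integrals of the second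
kind (`Pool.Agent.W245.EB.RedZ`), both completely formalized, the numbers `a_{l,i}` and
`σ_j ζ(u_{j,i}) + ρ_j u_{j,i}` are, for every `l` and `j`, linearly independent over the algebraic
numbers. A cube theorem and an iterated Cauchy-Schwarz inequality (`Pool.Agent.Y918.RP.tuplesF`) bound
the number of the parameters for which there is a relation.
-/

set_option autoImplicit false

open scoped PeriodPair

noncomputable section

namespace Pool.Agent.Results.MP_1eadae_ag.RandomSecondKind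

/-- The field of algebraic numbers. -/
abbrev Qbar : IntermediateField ℚ ℂ := algebraicClosure ℚ ℂ

/-- The Weierstrass zeta function
`ζ(z) = 1/z + ∑_{l ≠ 0} (1/(z - l) + 1/l + z/l²)` (in Lean `1/0 = 0`, so that the term with `l = 0`
of the sum below is `1/z`). -/
def zetaW (L : PeriodPair) (z : ℂ) : ℂ := ∑' l : L.lattice, (1 / (z - l) + 1 / l + z / l ^ 2)

/-- `β` belongs to the field `k = End(ℂ/Ω) ⊗ ℚ`: some multiple `m β`, `m ≥ 1`, maps the lattice `Ω`
to itself. -/
def IsMult (L : PeriodPair) (β : ℂ) : Prop :=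
  ∃ m : ℕ, 0 < m ∧ ∀ ω ∈ L.lattice, (m : ℂ) * β * ω ∈ L.lattice

/-- The numbers `w_j` are linearly independent over `k`. -/
def IndepMult (L : PeriodPair) {R : ℕ} (w : Fin R → ℂ) : Prop :=
  ∀ β : Fin R → ℂ, (∀ j, IsMult L (β j)) → ∑ j, β j * w j = 0 → ∀ j, β j = 0

/-- Some nonzero polynomial of total degree at most `D` with coefficients in `W` vanishes at `x`. -/
def Related (W : Submodule Qbar ℂ) (D : ℕ) {σ : Type} (x : σ → ℂ) : Prop :=
  ∃ Q : MvPolynomial σ ℂ, Q ≠ 0 ∧ Q.totalDegree ≤ D ∧ (∀ e, Q.coeff e ∈ W) ∧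
    MvPolynomial.eval x Q = 0

/-- The logarithms `t_l = τ_l + ∑_i m_{l,i} a_{l,i}`. -/
def logarithm {s n k : ℕ} (τ : Fin s → ℂ) (a : Fin s → Fin k → ℂ) (m : Fin s ⊕ Fin n → Fin k → ℤ)
    (l : Fin s) : ℂ := τ l + ∑ i, (m (Sum.inl l) i : ℂ) * a l i

/-- The points `p_j = b_j + ∑_i m_{j,i} u_{j,i}`. -/
def point {s n k : ℕ} (b : Fin n → ℂ) (u : Fin n → Fin k → ℂ) (m : Fin s ⊕ Fin n → Fin k → ℤ)
    (j : Fin n) : ℂ := b j + ∑ i, (m (Sum.inr j) i : ℂ) * u j i

open Classical in
/-- **Main result.** -/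
theorem result (s n D N : ℕ) : ∃ (k₀ C : ℕ) (δ : ℝ), 0 < δ ∧ ∀ k ≥ k₀,
    -- logarithms of algebraic numbers
    ∀ a : Fin s → Fin k → ℂ, (∀ l i, IsAlgebraic ℚ (Complex.exp (a l i))) →
    (∀ l, LinearIndependent ℚ (a l)) →
    -- elliptic curves and integrals of the second kind
    ∀ L : Fin n → PeriodPair, (∀ j, IsAlgebraic ℚ (L j).g₂) → (∀ j, IsAlgebraic ℚ (L j).g₃) →
    ∀ σ ρ : Fin n → ℂ, (∀ j, IsAlgebraic ℚ (σ j)) → (∀ j, IsAlgebraic ℚ (ρ j)) →
    (∀ j, σ j ≠ 0 ∨ ρ j ≠ 0) →
    -- elliptic logarithms of algebraic points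
    ∀ u : Fin n → Fin k → ℂ, (∀ j i, u j i ∈ (L j).lattice ∨ IsAlgebraic ℚ (℘[L j] (u j i))) →
    (∀ j, IndepMult (L j) (u j)) →
    ∀ (τ : Fin s → ℂ) (b : Fin n → ℂ), (∀ j, b j ∈ (L j).lattice ∨ IsAlgebraic ℚ (℘[L j] (b j))) →
    ∀ A : Finset ℤ, A.Nonempty →
    ∀ W : Submodule Qbar ℂ, Module.Finite Qbar W → Module.finrank Qbar W ≤ N →
    (((Fintype.piFinset fun _ : Fin s ⊕ Fin n => Fintype.piFinset fun _ : Fin k => A).filter
      (fun m => ¬ ((∀ j, point b u m j ∉ (L j).lattice ∧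
          IsAlgebraic ℚ (℘[L j] (point b u m j))) ∧
        ¬ Related W D (Sum.elim (logarithm τ a m)
          (fun j => σ j * zetaW (L j) (point b u m j) + ρ j * point b u m j))))).card : ℝ) ≤
      C * (A.card : ℝ) ^ (((s + n) * k : ℝ) - δ * k) := by
  obtain ⟨k₀, C, δ, hδ, h⟩ := Pool.Agent.Y918.EL.second s n D N
  refine ⟨k₀, C, δ, hδ,
    fun k hk a ha ha' L h2 h3 σ ρ hσ hρ hne u hu hind τ b hb A hA W hW hWN => ?_⟩
  let d : Fin n → Pool.Agent.Y918.EL.SK := fun j =>
    { L := L j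
      g2 := h2 j
      g3 := h3 j
      σ := σ j
      ρ := ρ j
      hσ := hσ j
      hρ := hρ j
      hne := hne j }
  have h1 := h k hk a (fun l => Pool.Agent.Y918.RP.li_QB_of_logs (ha l) (ha' l)) d u
    (fun j => ⟨hu j, fun β hβ h0 => funext fun i => hind j β hβ h0 i⟩) τ b hb A hA W hW hWN
  refine le_trans (Nat.cast_le.2 (Finset.card_le_card ?_)) h1
  intro m hm
  rw [Finset.mem_filter] at hm ⊢
  refine ⟨hm.1, fun hG => hm.2 ?_⟩
  obtain ⟨hn, hr⟩ := hG
  refine ⟨fun j => ⟨(hn j).1, (hn j).2.resolve_left (hn j).1⟩, ?_⟩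
  rintro ⟨Q, hQ, hQd, hQW, hQ0⟩
  apply hQ
  apply hr Q hQd hQW
  rw [← hQ0]
  congr 2
  funext i
  rcases i with i | i
  · rfl
  · have h5 : Pool.Agent.W245.EB.zt (L i) (point b u m i) = zetaW (L i) (point b u m i) :=
      Pool.Agent.W245.EB.zt_of_notMem (hn i).1
    change σ i * Pool.Agent.W245.EB.zt (L i) (point b u m i) + ρ i * point b u m i =
      σ i * zetaW (L i) (point b u m i) + ρ i * point b u m i
    rw [h5]

end Pool.Agent.Results.MP_1eadae_ag.RandomSecondKind
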